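import Pool.Agent.Q113.XK.Stm

/-! Job XK-WC5 of project XK (helper113): stability of covers in the window, `k ≤ 5`. -/

set_option autoImplicit false

namespace Pool.Agent.Q14.XK

open Finset Pool.Agent.Q113.XM Pool.Agent.Q113.XU Pool.Agent.Q113.XV Pool.Agent.Q113.XK
  Pool.Agent.Q54.EM Pool.Agent.W890.SF Pool.Agent.W593.IR Pool.Agent.W205.K5

section cnt

variable {V : Type} [Fintype V]

theorem NL_le (y : V → ℝ) (j : ℕ) : NL y j ≤ (Fintype.card V) ^ j := by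
  have h : NL y j ≤ (Set.univ : Set (Fin j → V)).ncard :=
    Set.ncard_le_ncard (Set.subset_univ _) Set.finite_univ
  rw [Set.ncard_univ, Nat.card_fun, Nat.card_eq_fintype_card, Nat.card_eq_fintype_card,
    Fintype.card_fin] at h
  exact h

theorem NL_add_NG (y : V → ℝ) (j : ℕ) : NL y j + NG y j = (Fintype.card V) ^ j := by
  have h1 : {f : Fin j → V | 1 ≤ ∑ i, y (f i)} = {f : Fin j → V | ∑ i, y (f i) < 1}ᶜ := by
    ext f
    simp only [Set.mem_ofPred_eq, Set.mem_compl_iff, not_lt]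
  unfold NL NG
  rw [h1, Set.ncard_add_ncard_compl, Nat.card_fun, Nat.card_eq_fintype_card,
    Nat.card_eq_fintype_card, Fintype.card_fin]

theorem NG_mono {y y' : V → ℝ} (h : ∀ v, y v ≤ y' v) (j : ℕ) : NG y j ≤ NG y' j := by
  refine Set.ncard_le_ncard ?_ (Set.toFinite _)
  intro f hf
  exact le_trans (show (1 : ℝ) ≤ ∑ i, y (f i) from hf) (Finset.sum_le_sum fun i _ => h _)

theorem NL_one (y : V → ℝ) : NL y 1 = (univ.filter fun v => y v < 1).card := by
  unfold NL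
  have e : {f : Fin 1 → V | ∑ i, y (f i) < 1} ≃ {v : V // v ∈ univ.filter fun v => y v < 1} :=
    { toFun := fun f => ⟨f.1 0, by
        have h := f.2
        rw [Set.mem_ofPred_eq, Fin.sum_univ_one] at h
        exact Finset.mem_filter.2 ⟨Finset.mem_univ _, h⟩⟩
      invFun := fun v => ⟨fun _ => v.1, by
        rw [Set.mem_ofPred_eq, Fin.sum_univ_one]
        exact (Finset.mem_filter.1 v.2).2⟩
      left_inv := fun f => by
        apply Subtype.ext
        funext i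
        change f.1 0 = f.1 i
        rw [Subsingleton.elim i 0]
      right_inv := fun v => rfl }
  rw [← Nat.card_coe_set_eq, Nat.card_congr e, Nat.card_eq_fintype_card, Fintype.card_coe]

end cnt

/-- A lower bound for the density. -/
theorem dens_low (hCRF : S_CRF) {k : ℕ} (hk : 2 ≤ k) {c : ℝ} (hc : Crt k c) {ε ε' x : ℝ}
    (hε' : 0 < ε') (h1 : ε ≤ ε' ^ k) (hx0 : 0 ≤ x)
    (hmv : ((k : ℝ) * c) ^ k - ε ≤ mv k x) : c - ε' ≤ x := by
  by_contra hlt
  rw [not_le] at hlt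
  obtain ⟨hc0, hc1, hc2⟩ := hc
  have hxc : x ≤ c := by linarith
  rw [(hCRF k hk c ⟨hc0, hc1, hc2⟩).1 x hx0 hxc] at hmv
  have hc3 : c ≤ 1 := by
    have hk1 : (1 : ℝ) ≤ k := by
      have : (1 : ℕ) ≤ k := by omega
      exact_mod_cast this
    nlinarith
  have h2 : (1 - c + ε') ^ k ≥ (1 - c) ^ k + ε' ^ k := by
    have h3 : ∀ (a b : ℝ), 0 ≤ a → 0 ≤ b → ∀ j : ℕ, 1 ≤ j → a ^ j + b ^ j ≤ (a + b) ^ j := by
      intro a b ha hb j hj
      induction j, hj using Nat.le_induction with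
      | base => simp
      | succ j hj ih =>
        have h4 : (a + b) ^ (j + 1) = (a + b) ^ j * (a + b) := pow_succ _ _
        rw [h4, pow_succ, pow_succ]
        have h5 : 0 ≤ a ^ j := pow_nonneg ha j
        have h6 : 0 ≤ b ^ j := pow_nonneg hb j
        nlinarith [mul_nonneg h5 hb, mul_nonneg h6 ha, mul_le_mul_of_nonneg_right ih (add_nonneg ha hb)]
    exact h3 (1 - c) ε' (by linarith) hε'.le k (by omega)
  have h7 : (1 - c + ε') ^ k < (1 - x) ^ k :=
    pow_lt_pow_left₀ (by linarith) (by linarith) (by omega)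
  linarith

/-- The set `U` and the modified weight. -/
theorem exists_U {k n : ℕ} (hk : 1 ≤ k) (y : Fin n → ℝ)
    (hpos : 0 < ∑ v, y v)
    (hs : ((univ.filter (fun v => y v ≠ 0)).card : ℝ) ≤ k * ∑ v, y v)
    (hn : (k : ℝ) * ∑ v, y v ≤ n) :
    ∃ (U : Finset (Fin n)) (ys : Fin n → ℝ) (u₀ : Fin n), u₀ ∈ U ∧ (∀ v, v ∉ U → ys v = 0) ∧
      (∀ v, y v ≤ ys v) ∧ (∀ v, v ≠ u₀ → ys v = y v) ∧
      (k : ℝ) * ∑ v, ys v = (U.card : ℝ) ∧ (U.card : ℝ) ≤ k * (∑ v, y v) + 1 := by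
  have hk0 : (0 : ℝ) < k := by exact_mod_cast hk
  set h := ∑ v, y v with hh
  have h1 : (univ.filter (fun v => y v ≠ 0)).card ≤ ⌈(k : ℝ) * h⌉₊ := by
    have h2 := hs.trans (Nat.le_ceil _)
    exact_mod_cast h2
  have h2 : ⌈(k : ℝ) * h⌉₊ ≤ Fintype.card (Fin n) := by
    rw [Fintype.card_fin, Nat.ceil_le]
    exact hn
  obtain ⟨U, hU, hUc⟩ := Finset.exists_superset_card_eq h1 h2
  have hUpos : 0 < U.card := by
    rw [hUc, Nat.ceil_pos]
    positivity
  obtain ⟨u₀, hu₀⟩ := Finset.card_pos.1 hUpos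
  have hc1 : (k : ℝ) * h ≤ U.card := by
    rw [hUc]
    exact Nat.le_ceil _
  have hc2 : (U.card : ℝ) ≤ k * h + 1 := by
    rw [hUc]
    exact (Nat.ceil_lt_add_one (by positivity)).le
  have hδ : 0 ≤ (U.card : ℝ) / k - h := by
    rw [sub_nonneg, le_div_iff₀ hk0, mul_comm]
    exact hc1
  refine ⟨U, fun v => if v = u₀ then y v + ((U.card : ℝ) / k - h) else y v, u₀, hu₀, ?_, ?_, ?_,
    ?_, hc2⟩
  · intro v hv
    have h3 : v ≠ u₀ := fun h => hv (h ▸ hu₀)
    simp only [if_neg h3]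
    by_contra h4
    exact hv (hU (Finset.mem_filter.2 ⟨Finset.mem_univ _, h4⟩))
  · intro v
    by_cases h3 : v = u₀
    · simp only [if_pos h3]
      linarith
    · simp only [if_neg h3]
      exact le_rfl
  · intro v h3
    simp only [if_neg h3]
  · have h3 : ∀ v, (if v = u₀ then y v + ((U.card : ℝ) / k - h) else y v) =
        y v + (if v = u₀ then ((U.card : ℝ) / k - h) else 0) := by
      intro v
      by_cases h3 : v = u₀
      · rw [if_pos h3, if_pos h3]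
      · rw [if_neg h3, if_neg h3, add_zero]
    rw [Finset.sum_congr rfl fun v _ => h3 v, Finset.sum_add_distrib, Finset.sum_ite_eq',
      if_pos (Finset.mem_univ _), ← hh]
    field_simp
    ring

/-- Exceptional vertices. -/
theorem few {n : ℕ} (E W : Finset (Fin n)) (u₀ : Fin n) (f : Fin n → ℝ) (γ η : ℝ)
    (hγ : 0 < γ) (hf : ∀ v ∈ W, 0 ≤ f v) (hE : ∀ v ∈ E, v ≠ u₀ → v ∈ W ∧ γ ≤ f v)
    (hsum : ∑ v ∈ W, f v ≤ η * n) (hη : η ≤ γ ^ 2 / 2) (hn : 2 / γ ≤ n) :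
    (E.card : ℝ) ≤ γ * n := by
  have h1 : γ * ((E.erase u₀).card : ℝ) ≤ ∑ v ∈ W, f v := by
    have h2 : ∑ v ∈ E.erase u₀, f v ≤ ∑ v ∈ W, f v := by
      refine Finset.sum_le_sum_of_subset_of_nonneg ?_ fun v hv _ => hf v hv
      intro v hv
      rw [Finset.mem_erase] at hv
      exact (hE v hv.2 hv.1).1
    have h3 : ∑ _v ∈ E.erase u₀, γ ≤ ∑ v ∈ E.erase u₀, f v := by
      refine Finset.sum_le_sum fun v hv => ?_
      rw [Finset.mem_erase] at hv
      exact (hE v hv.2 hv.1).2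
    rw [Finset.sum_const, nsmul_eq_mul] at h3
    linarith
  have h4 : (E.card : ℝ) ≤ ((E.erase u₀).card : ℝ) + 1 := by
    have h0 := Finset.pred_card_le_card_erase (s := E) (a := u₀)
    have h0' : E.card ≤ (E.erase u₀).card + 1 := by omega
    exact_mod_cast h0'
  have h5 : 2 ≤ γ * n := by
    rw [div_le_iff₀ hγ] at hn
    linarith
  have hn0 : (0 : ℝ) ≤ n := Nat.cast_nonneg n
  have h6 : γ * (E.card : ℝ) ≤ γ * (γ * n) := by
    have h7 : η * n ≤ γ ^ 2 / 2 * n := mul_le_mul_of_nonneg_right hη hn0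
    have h8 : γ * (E.card : ℝ) ≤ γ * (((E.erase u₀).card : ℝ) + 1) :=
      mul_le_mul_of_nonneg_left h4 hγ.le
    nlinarith
  exact le_of_mul_le_mul_left h6 hγ

/-- The main step. -/
theorem main_step {k n : ℕ} (hk : 3 ≤ k) (hCRF : S_CRF) (hBRG : S_BRG) (hRST : S_RST)
    (hLMW : LMW k) {c : ℝ} (hc : Crt k c) {κ C ε ε' η γ : ℝ} (hκ : 0 < κ) (hC : 0 < C)
    (hII : ∀ (V : Type) [Fintype V] [Nonempty V] (y : V → ℝ),
      (∀ v, 0 ≤ y v) → (k : ℝ) * ∑ v, y v = (Fintype.card V : ℝ) → ∀ ρ : ℝ, 0 < ρ → ρ < 1 →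
      ρ ^ k + (1 - ρ / k) ^ k = 1 →
      1 - ρ ^ k + κ * min ((∑ v, |y v - 1 / (k : ℝ)|) / (Fintype.card V : ℝ))
          ((NL y 1 : ℝ) / (Fintype.card V : ℝ) - (1 - 1 / (k : ℝ))) ≤
        Th k ρ (fun j => (NL y j : ℝ) / (Fintype.card V : ℝ) ^ j))
    (hCT : ∀ (u : ℕ → ℝ), (∀ j, 0 ≤ u j ∧ u j ≤ 1) →
      ∀ ρ ρ' : ℝ, 0 ≤ ρ → ρ ≤ 1 → 0 ≤ ρ' → ρ' ≤ 1 → |Th k ρ u - Th k ρ' u| ≤ C * |ρ - ρ'|)
    (hε' : 0 < ε') (hε0 : 0 < ε) (hε1 : ε ≤ ε' ^ k) (hε2 : ε ≤ ε' / 2)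
    (hε3 : (k : ℝ) * (c + ε) ≤ 1)
    (hε4 : ε < ((k : ℝ) * c) ^ k) (hη : ε + C * (k * ε') ≤ κ * η) (hγ : 0 < γ)
    (hηγ : η ≤ γ ^ 2 / 2) (hn1 : 2 / γ ≤ n) (hn2 : 2 / ε' ≤ n) (hn0 : 1 ≤ n)
    (y : Fin n → ℝ) (hy : ∀ v, 0 ≤ y v) (hsum : ∑ v, y v ≤ (c + ε) * n)
    (hsup : ((univ.filter (fun v => y v ≠ 0)).card : ℝ) ≤ k * ∑ v, y v)
    (hNG : (((k : ℝ) * c) ^ k - ε) * (n : ℝ) ^ k ≤ (NG y k : ℝ)) :
    (((univ.filter (fun v : Fin n => γ < y v ∧ y v < 1 - γ)).card : ℕ) : ℝ) ≤ γ * n ∨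
    (((univ.filter (fun v : Fin n => γ < y v ∧ γ < |y v - 1 / (k : ℝ)|)).card : ℕ) : ℝ) ≤
      γ * n := by
  have hn : (0 : ℝ) < n := by exact_mod_cast hn0
  have hk0 : (0 : ℝ) < k := by
    have : 0 < k := by omega
    exact_mod_cast this
  obtain ⟨hc0, hc1, hc2⟩ := hc
  -- the total is positive
  have hpos : 0 < ∑ v, y v := by
    by_contra h
    have h0 : ∑ v, y v = 0 := le_antisymm (not_lt.1 h) (Finset.sum_nonneg fun v _ => hy v)
    have h1 : ∀ v, y v = 0 := fun v =>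
      (Finset.sum_eq_zero_iff_of_nonneg fun v _ => hy v).1 h0 v (Finset.mem_univ v)
    have h2 : NG y k = 0 := by
      unfold NG
      have h3 : {f : Fin k → Fin n | 1 ≤ ∑ i, y (f i)} = ∅ := by
        ext f
        simp only [Set.mem_ofPred_eq, Set.mem_empty_iff_false, iff_false, not_le]
        rw [Finset.sum_eq_zero fun i _ => h1 _]
        exact one_pos
      rw [h3, Set.ncard_empty]
    rw [h2, Nat.cast_zero] at hNG
    have h4 : 0 < (((k : ℝ) * c) ^ k - ε) * (n : ℝ) ^ k :=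
      mul_pos (by linarith) (pow_pos hn k)
    linarith
  have hkn : (k : ℝ) * ∑ v, y v ≤ n := by
    calc (k : ℝ) * ∑ v, y v ≤ k * ((c + ε) * n) := mul_le_mul_of_nonneg_left hsum hk0.le
      _ = (k * (c + ε)) * n := by ring
      _ ≤ 1 * n := mul_le_mul_of_nonneg_right hε3 hn.le
      _ = n := one_mul _
  obtain ⟨U, ys, u₀, hu₀, hys0, hyle, hyeq, hysum, hUc⟩ :=
    exists_U (by omega) y hpos hsup hkn
  have hys : ∀ v, 0 ≤ ys v := fun v => (hy v).trans (hyle v)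
  have hUpos : 0 < U.card := Finset.card_pos.2 ⟨u₀, hu₀⟩
  have hUr : (0 : ℝ) < U.card := by exact_mod_cast hUpos
  have hUn : (U.card : ℝ) ≤ n := by
    have h1 : U.card ≤ n := by
      have := Finset.card_le_univ U
      rwa [Fintype.card_fin] at this
    exact_mod_cast h1
  have hne : Nonempty (Fin n) := ⟨u₀⟩
  -- the law
  obtain ⟨hW, hmu, hUP⟩ := hBRG (Fin n) ys hys
  rw [Fintype.card_fin] at hW hmu hUP
  set x : ℝ := (U.card : ℝ) / (k * n) with hx
  have hx0 : 0 ≤ x := by positivity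
  have hkx : (k : ℝ) * x = (U.card : ℝ) / n := by
    rw [hx]
    field_simp
  have hkx1 : (k : ℝ) * x ≤ 1 := by
    rw [hkx, div_le_one hn]
    exact hUn
  have hmux : mu (fun _ : Fin n => 1 / (n : ℝ)) ys ≤ x := by
    rw [hmu, hx, div_le_div_iff₀ hn (by positivity), ← hysum]
    apply le_of_eq
    ring
  have hUPk := hLMW (Fin n) (fun _ : Fin n => 1 / (n : ℝ)) ys x hW hmux hx0 hkx1
  have hNGys : (NG ys k : ℝ) ≤ mv k x * (n : ℝ) ^ k := by
    have h1 := hUP k 1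
    have h2 : (({f : Fin k → Fin n | 1 ≤ ∑ i, ys (f i)}.ncard : ℕ) : ℝ) = (NG ys k : ℝ) := rfl
    rw [← h2, ← h1]
    exact mul_le_mul_of_nonneg_right hUPk (pow_nonneg hn.le k)
  have hNGle : (NG y k : ℝ) ≤ (NG ys k : ℝ) := by exact_mod_cast NG_mono hyle k
  have hmv : ((k : ℝ) * c) ^ k - ε ≤ mv k x :=
    le_of_mul_le_mul_right (hNG.trans (hNGle.trans hNGys)) (pow_pos hn k)
  have hxlow := dens_low hCRF (by omega) ⟨hc0, hc1, hc2⟩ hε' hε1 hx0 hmv
  have hxup : x ≤ c + ε' := by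
    rw [hx, div_le_iff₀ (by positivity)]
    have h1 : 1 ≤ ε' / 2 * n := by
      rw [div_le_iff₀ hε'] at hn2
      linarith
    have h2 : (k : ℝ) * ∑ v, y v ≤ k * ((c + ε) * n) := mul_le_mul_of_nonneg_left hsum hk0.le
    have h3 : ε * n ≤ ε' / 2 * n := mul_le_mul_of_nonneg_right hε2 hn.le
    have h4 : (1 : ℝ) ≤ k := by
      have : 1 ≤ k := by omega
      exact_mod_cast this
    nlinarith
  have hdiff : |(k : ℝ) * c - (U.card : ℝ) / n| ≤ k * ε' := by
    rw [← hkx, ← mul_sub, abs_mul, abs_of_pos hk0]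
    refine mul_le_mul_of_nonneg_left ?_ hk0.le
    rw [abs_le]
    constructor <;> linarith
  -- restriction
  have hR := hRST (Fin n) U ys k ⟨u₀, hu₀⟩ hys0
  rw [Fintype.card_fin] at hR
  set u : ℕ → ℝ := fun j => (NL (fun v : U => ys v) j : ℝ) / ((U.card : ℝ)) ^ j with hu
  have hu01 : ∀ j, 0 ≤ u j ∧ u j ≤ 1 := by
    intro j
    refine ⟨by positivity, ?_⟩
    rw [hu]
    simp only
    rw [div_le_one (pow_pos hUr j)]
    have h1 := NL_le (fun v : U => ys v) j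
    rw [Fintype.card_coe] at h1
    exact_mod_cast h1
  have hNLn : (NL ys k : ℝ) / (n : ℝ) ^ k ≤ 1 - ((k : ℝ) * c) ^ k + ε := by
    have h1 := NL_add_NG ys k
    rw [Fintype.card_fin] at h1
    have h2 : (NL ys k : ℝ) + (NG ys k : ℝ) = (n : ℝ) ^ k := by exact_mod_cast h1
    rw [div_le_iff₀ (pow_pos hn k)]
    nlinarith [hNG, hNGle]
  have hTh : Th k ((k : ℝ) * c) u ≤ 1 - ((k : ℝ) * c) ^ k + ε + C * (k * ε') := by
    have h1 := hCT u hu01 ((k : ℝ) * c) ((U.card : ℝ) / n) (by positivity) hc1.le (by positivity)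
      ((div_le_one hn).2 hUn)
    have h2 := (abs_le.1 h1).2
    have h3 : C * |(k : ℝ) * c - (U.card : ℝ) / n| ≤ C * (k * ε') :=
      mul_le_mul_of_nonneg_left hdiff hC.le
    rw [hR] at hNLn
    linarith
  -- the i.i.d. form on `U`
  have hneU : Nonempty U := ⟨⟨u₀, hu₀⟩⟩
  have hsU : ∀ f : Fin n → ℝ, ∑ v : U, f v = ∑ v ∈ U, f v := fun f => Finset.sum_coe_sort U f
  have hsumU : ∑ v ∈ U, ys v = ∑ v, ys v :=
    Finset.sum_subset (Finset.subset_univ U) fun v _ hv => hys0 v hv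
  have hI := hII U (fun v : U => ys v) (fun v => hys v)
    (by rw [hsU ys, hsumU, hysum, Fintype.card_coe]) ((k : ℝ) * c) (by positivity) hc1
    (by
      rw [mul_div_cancel_left₀ c hk0.ne']
      exact hc2)
  rw [Fintype.card_coe] at hI
  have hmin : min ((∑ v : U, |ys v - 1 / (k : ℝ)|) / (U.card : ℝ))
      ((NL (fun v : U => ys v) 1 : ℝ) / (U.card : ℝ) - (1 - 1 / (k : ℝ))) ≤ η := by
    have h1 : κ * min ((∑ v : U, |ys v - 1 / (k : ℝ)|) / (U.card : ℝ))
        ((NL (fun v : U => ys v) 1 : ℝ) / (U.card : ℝ) - (1 - 1 / (k : ℝ))) ≤ κ * η := by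
      linarith
    exact le_of_mul_le_mul_left h1 hκ
  rcases min_le_iff.1 hmin with hA | hB
  · right
    rw [div_le_iff₀ hUr, hsU (fun v => |ys v - 1 / (k : ℝ)|)] at hA
    have hη0 : 0 ≤ η := by
      by_contra h
      have h1 : η * (U.card : ℝ) < 0 := mul_neg_of_neg_of_pos (not_le.1 h) hUr
      have h2 : 0 ≤ ∑ v ∈ U, |ys v - 1 / (k : ℝ)| := Finset.sum_nonneg fun v _ => abs_nonneg _
      linarith
    refine few _ U u₀ (fun v => |ys v - 1 / (k : ℝ)|) γ η hγ (fun v _ => abs_nonneg _) ?_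
      (hA.trans (mul_le_mul_of_nonneg_left hUn hη0)) hηγ hn1
    intro v hv hvu
    rw [Finset.mem_filter] at hv
    refine ⟨?_, ?_⟩
    · by_contra h
      have h1 := hys0 v h
      rw [hyeq v hvu] at h1
      linarith [hv.2.1]
    · rw [hyeq v hvu]
      exact hv.2.2.le
  · left
    have hG1 : (NL (fun v : U => ys v) 1 : ℝ) ≤ (1 - 1 / (k : ℝ) + η) * U.card := by
      have h1 : (NL (fun v : U => ys v) 1 : ℝ) / (U.card : ℝ) ≤ 1 - 1 / (k : ℝ) + η := by linarith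
      rwa [div_le_iff₀ hUr] at h1
    have hcount : NL (fun v : U => ys v) 1 = (U.filter fun v => ys v < 1).card := by
      rw [NL_one]
      rw [← Finset.card_map (Function.Embedding.subtype _)]
      congr 1
      ext v
      simp only [Finset.mem_map, Finset.mem_filter, Finset.mem_univ, true_and,
        Function.Embedding.subtype_apply]
      constructor
      · rintro ⟨w, hw, rfl⟩
        exact ⟨w.2, hw⟩
      · rintro ⟨h1, h2⟩
        exact ⟨⟨v, h1⟩, h2, rfl⟩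
    have hsplit := Finset.sum_filter_add_sum_filter_not U (fun v => ys v < 1) ys
    have hcsplit := Finset.card_filter_add_card_filter_not (s := U) (fun v => ys v < 1)
    have hbig : ((U.filter fun v => ¬ ys v < 1).card : ℝ) ≤
        ∑ v ∈ U.filter (fun v => ¬ ys v < 1), ys v := by
      have h1 : ∑ _v ∈ U.filter (fun v => ¬ ys v < 1), (1 : ℝ) ≤
          ∑ v ∈ U.filter (fun v => ¬ ys v < 1), ys v := by
        refine Finset.sum_le_sum fun v hv => ?_
        exact not_lt.1 (Finset.mem_filter.1 hv).2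
      rwa [Finset.sum_const, nsmul_eq_mul, mul_one] at h1
    have hUk : ∑ v ∈ U, ys v = (U.card : ℝ) / k := by
      rw [hsumU, eq_div_iff hk0.ne', mul_comm]
      exact hysum
    have hc' : ((U.filter fun v => ys v < 1).card : ℝ) +
        ((U.filter fun v => ¬ ys v < 1).card : ℝ) = U.card := by exact_mod_cast hcsplit
    rw [hcount] at hG1
    have hsmall : ∑ v ∈ U.filter (fun v => ys v < 1), ys v ≤ η * U.card := by
      have h1 : (1 - 1 / (k : ℝ) + η) * U.card = U.card - U.card / k + η * U.card := by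
        field_simp
      rw [h1] at hG1
      linarith
    have hη0 : 0 ≤ η := by
      by_contra h
      have h1 : η * (U.card : ℝ) < 0 := mul_neg_of_neg_of_pos (not_le.1 h) hUr
      have h2 : 0 ≤ ∑ v ∈ U.filter (fun v => ys v < 1), ys v :=
        Finset.sum_nonneg fun v _ => hys v
      linarith
    refine few _ (U.filter fun v => ys v < 1) u₀ ys γ η hγ (fun v _ => hys v) ?_
      (hsmall.trans (mul_le_mul_of_nonneg_left hUn hη0)) hηγ hn1
    intro v hv hvu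
    rw [Finset.mem_filter] at hv
    have h1 := hyeq v hvu
    refine ⟨Finset.mem_filter.2 ⟨?_, ?_⟩, ?_⟩
    · by_contra h
      have h2 := hys0 v h
      rw [h1] at h2
      linarith [hv.2.1]
    · rw [h1]
      linarith [hv.2.2]
    · rw [h1]
      exact hv.2.1.le

/-- Job WC5. -/
theorem t_WC5 : S_CRF → S_BRG → S_CTB → S_RST → S_WC5 := by
  intro hCRF hBRG hCTB hRST k hk hLMW hIID c hc γ hγ
  obtain ⟨κ, hκ, hII⟩ := hIID
  obtain ⟨C, hC, hCT⟩ := hCTB k
  have hk0 : (0 : ℝ) < k := by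
    have : 0 < k := by omega
    exact_mod_cast this
  obtain ⟨hc0, hc1, hc2⟩ := id hc
  set η : ℝ := γ ^ 2 / 2 with hη
  have hη0 : 0 < η := by positivity
  set ε' : ℝ := κ * η / (2 * (C * k)) with hε'
  have hε'0 : 0 < ε' := by positivity
  set ε : ℝ := min (min (κ * η / 2) (ε' ^ k)) (min (min (ε' / 2) ((1 - k * c) / k))
    (((k : ℝ) * c) ^ k / 2)) with hε
  have hkc : 0 < ((k : ℝ) * c) ^ k := by positivity
  have hε0 : 0 < ε := by
    rw [hε]
    refine lt_min (lt_min (by positivity) (by positivity)) (lt_min (lt_min (by positivity) ?_)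
      (by positivity))
    exact div_pos (by linarith) hk0
  have e1 : ε ≤ κ * η / 2 := (min_le_left _ _).trans (min_le_left _ _)
  have e2 : ε ≤ ε' ^ k := (min_le_left _ _).trans (min_le_right _ _)
  have e3 : ε ≤ ε' / 2 := (min_le_right _ _).trans ((min_le_left _ _).trans (min_le_left _ _))
  have e4 : ε ≤ (1 - k * c) / k :=
    (min_le_right _ _).trans ((min_le_left _ _).trans (min_le_right _ _))
  have e5 : ε ≤ ((k : ℝ) * c) ^ k / 2 := (min_le_right _ _).trans (min_le_right _ _)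
  refine ⟨ε, hε0, max (max ⌈2 / γ⌉₊ ⌈2 / ε'⌉₊) 1, ?_⟩
  intro n hn y hy hsum hsup hNG
  have n1 : 2 / γ ≤ (n : ℝ) := by
    have h1 : ⌈2 / γ⌉₊ ≤ n := ((le_max_left _ _).trans (le_max_left _ _)).trans hn
    exact (Nat.le_ceil _).trans (by exact_mod_cast h1)
  have n2 : 2 / ε' ≤ (n : ℝ) := by
    have h1 : ⌈2 / ε'⌉₊ ≤ n := ((le_max_right _ _).trans (le_max_left _ _)).trans hn
    exact (Nat.le_ceil _).trans (by exact_mod_cast h1)
  have n3 : 1 ≤ n := (le_max_right _ _).trans hn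
  refine main_step hk hCRF hBRG hRST hLMW hc hκ hC hII hCT hε'0 hε0 e2 e3 ?_ ?_ ?_ hγ le_rfl
    n1 n2 n3 y hy hsum hsup hNG
  · have h1 : (k : ℝ) * ε ≤ 1 - k * c := by
      have h2 := mul_le_mul_of_nonneg_left e4 hk0.le
      rwa [mul_div_cancel₀ _ hk0.ne'] at h2
    linarith
  · linarith
  · have h1 : C * (k * ε') = κ * η / 2 := by
      rw [hε']
      field_simp
    have h2 : κ * (γ ^ 2 / 2) = κ * η := by rw [hη]
    rw [h1, h2]
    linarith

end Pool.Agent.Q14.XK
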